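import Pool.Agent.P.MP_767d8d_lc.MG
import Pool.Agent.P.MP_767d8d_lc.PK
import Pool.Agent.P.MP_767d8d_lc.RE

open Pool.Agent.P.MP_767d8d_lc

namespace Pool.Agent.Results.MP_767d8d_lc.EndLetterRE

theorem result (k : ℕ) (K : Set (List ℕ)) (hK : ∀ w ∈ K, ∀ c ∈ w, c < k) :
    REPred (fun w => w ∈ K) ↔ ∃ G : EMG, genLang G 1 =
      {x | ∃ w ∈ K, x = w ++ [k]} ∪ {x | ∃ w, w ≠ [] ∧ (∀ c ∈ w, c < k) ∧ x = k :: w} := by
  classical
  constructor
  · intro h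
    obtain ⟨P, hP⟩ := exists_prog k hK h
    obtain ⟨σ, _, lb, nx, s, t, hs⟩ := exists_aut P
    obtain ⟨G, hG⟩ := aut_lang lb nx s t (fun c => Encodable.encode [c.1])
      (if [] ∈ K then {[k]} else ∅)
    refine ⟨G, Set.ext fun x => (hG x).trans ⟨?_, ?_⟩⟩
    · rintro (h1 | ⟨w, h1, rfl⟩ | ⟨w, ρ, ⟨c, h1⟩, rfl⟩)
      · split_ifs at h1 with h2
        · exact Or.inl ⟨[], h2, Finset.mem_singleton.1 h1⟩
        · exact absurd h1 (Finset.notMem_empty _)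
      · exact Or.inr ⟨w, h1.1, h1.2, rfl⟩
      · exact Or.inl ⟨w, (hP w).1 ρ c ((hs _ _).1 h1), rfl⟩
    · rintro (⟨w, h1, rfl⟩ | ⟨w, h1, h2, rfl⟩)
      · by_cases h2 : w = []
        · subst h2
          exact Or.inl (by simp [h1])
        · obtain ⟨ρ, c, h3⟩ := (hP w).2 h1 h2
          exact Or.inr (Or.inr ⟨w, ρ, ⟨c, (hs _ _).2 h3⟩, rfl⟩)
      · exact Or.inr (Or.inl ⟨w, ⟨h1, h2⟩, rfl⟩)
  · rintro ⟨G, hG⟩
    have h1 : REPred fun w : List ℕ => w ++ [k] ∈ genLang G 1 :=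
      Partrec.comp (re_genLang G 1) (Primrec.list_append.comp .id (.const [k])).to_comp
    refine h1.of_eq fun w => ?_
    rw [hG]
    refine ⟨?_, fun h => Or.inl ⟨w, h, rfl⟩⟩
    rintro (⟨v, h2, h3⟩ | ⟨v, h2, h3, h4⟩)
    · exact List.append_cancel_right h3 ▸ h2
    · obtain ⟨u, a, rfl⟩ := (List.eq_nil_or_concat' v).resolve_left h2
      have h5 : k = a := List.singleton_injective
        (List.append_inj_right' (h4.trans (List.cons_append ..).symm) rfl)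
      exact absurd (h3 a (by simp)) (by omega)

end Pool.Agent.Results.MP_767d8d_lc.EndLetterRE
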